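import Pool.Agent.Helper32.OIP.Goals

/-!
# OIP, packet O10: inverse of an injective orbit isometry
-/

open MeasureTheory
open scoped ENNReal

namespace Pool.Agent.Helper20.OIP

open Pool.Agent.Helper32.OIP Pool.Agent.Helper58.Orb

section

variable {A B : Type} [Group A] [Group B] [Countable A] [Countable B]

/-- Almost every point of the target is the image of a point with a property which holds almost
everywhere (for a measure-preserving map which is injective on a conull set). -/
theorem ae_exists {Φ : Bern A → Bern B} (hmp : MeasurePreserving Φ (bern A) (bern B))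
    {X₀ : Set (Bern A)} (h0 : bern A X₀ᶜ = 0) (hinj : Set.InjOn Φ X₀) {Q : Bern A → Prop}
    (hQ : ∀ᵐ x ∂(bern A), Q x) : ∀ᵐ y ∂(bern B), ∃ x, Q x ∧ Φ x = y := by
  set V : Set (Bern A) := X₀ᶜ ∪ {x | ¬ Q x} with hV
  have hV0 : bern A V = 0 := measure_union_null h0 (ae_iff.1 hQ)
  set U : Set (Bern A) := (toMeasurable (bern A) V)ᶜ with hU
  have hUm : MeasurableSet U := (measurableSet_toMeasurable _ _).compl
  have hUV : ∀ x ∈ U, x ∉ V := fun x hx hxV => hx (subset_toMeasurable _ _ hxV)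
  have hUX : U ⊆ X₀ := by
    intro x hx
    by_contra hc
    exact hUV x hx (Or.inl hc)
  have hUQ : ∀ x ∈ U, Q x := by
    intro x hx
    by_contra hc
    exact hUV x hx (Or.inr hc)
  have him : MeasurableSet (Φ '' U) :=
    hUm.image_of_measurable_injOn hmp.measurable (hinj.mono hUX)
  rw [ae_iff]
  refine measure_mono_null (t := (Φ '' U)ᶜ) ?_ ?_
  · intro y hy hy2
    obtain ⟨x, hx, rfl⟩ := hy2
    exact hy ⟨x, hUQ x hx, rfl⟩
  · rw [← hmp.measure_preimage him.compl.nullMeasurableSet]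
    refine measure_mono_null (t := toMeasurable (bern A) V) ?_ ?_
    · intro x hx
      by_contra hc
      exact hx ⟨x, hc, rfl⟩
    · rw [measure_toMeasurable, hV0]

end

theorem o10 : GoalO10 := by
  intro hR0 hO1 hO2 A B _ _ _ _ S S' D L _ _ T T' e Φ hΦ hX
  obtain ⟨X₀, h0, hinj⟩ := hX
  have hO := (hO2 hR0 hO1 A B S S' D L T T' e Φ hΦ).1
  have hmp := hΦ.measurePreserving
  -- a measurable conull set on which `Φ` is injective
  set X₁ : Set (Bern A) := (toMeasurable (bern A) X₀ᶜ)ᶜ with hX₁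
  have hX₁m : MeasurableSet X₁ := (measurableSet_toMeasurable _ _).compl
  have hX₁X : X₁ ⊆ X₀ := by
    intro x hx
    by_contra hc
    exact hx (subset_toMeasurable _ _ hc)
  have hX₁0 : ∀ᵐ x ∂(bern A), x ∈ X₁ := by
    rw [ae_iff]
    have : {x | ¬ x ∈ X₁} = toMeasurable (bern A) X₀ᶜ := by
      ext x
      simp [hX₁]
    rw [this, measure_toMeasurable, h0]
  haveI : StandardBorelSpace X₁ := hX₁m.standardBorel
  have hf : MeasurableEmbedding (fun x : X₁ => Φ x) := by
    refine Measurable.measurableEmbedding (hmp.measurable.comp measurable_subtype_coe) ?_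
    intro x y hxy
    exact Subtype.ext (hinj (hX₁X x.2) (hX₁X y.2) hxy)
  obtain ⟨Ψ, hΨm, hΨ⟩ := hf.exists_measurable_extend (g := fun x : X₁ => (x : Bern A))
    measurable_subtype_coe (fun _ => ⟨fun _ => 0⟩)
  have hΨ' : ∀ x ∈ X₁, Ψ (Φ x) = x := fun x hx => congrFun hΨ ⟨x, hx⟩
  have hleft : ∀ᵐ x ∂(bern A), Ψ (Φ x) = x := by
    filter_upwards [hX₁0] with x hx using hΨ' x hx
  refine ⟨Ψ, ?_⟩
  refine
    { isoL := hΦ
      isoR := ?_
      left := hleft
      right := ?_ }
  · refine ⟨⟨hΨm, ?_⟩, ?_⟩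
    · rw [← hmp.map_eq, Measure.map_map hΨm hmp.measurable]
      have : (Ψ ∘ Φ) =ᵐ[bern A] id := hleft
      rw [Measure.map_congr this, Measure.map_id]
    · have hall := ae_forall_shift hleft
      have hQ : ∀ᵐ x ∂(bern A), (∀ b : B, ∃ g : A, Φ (shift g x) = shift b (Φ x)) ∧
          (∀ g : A, Ψ (Φ (shift g x)) = shift g x) ∧
          (∀ g : A, orbDist S' (Φ x) (Φ (shift g x)) = orbDist S x (shift g x)) := by
        filter_upwards [hO, hall, hΦ.dist_eq] with x h1 h2 h3
        exact ⟨fun b => (h1 b).1.exists, h2, h3⟩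
      filter_upwards [ae_exists hmp h0 hinj hQ] with y hy
      obtain ⟨x, ⟨h1, h2, h3⟩, rfl⟩ := hy
      intro b
      obtain ⟨g, hg⟩ := h1 b
      have e1 : Ψ (Φ x) = x := by
        have := h2 1
        rwa [shift_one] at this
      rw [← hg, e1, h2 g, h3 g]
  · filter_upwards [ae_exists hmp h0 hinj hleft] with y hy
    obtain ⟨x, hx, rfl⟩ := hy
    rw [hx]

end Pool.Agent.Helper20.OIP
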